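import Pool.Agent.R302.OpenMultA

open scoped Pointwise

namespace Pool.Agent.Results.MP_64150f_an.OpenMul

open Pool.Agent.R302.OpenMult

universe u

/-- Multiplication in the complex algebra `C(X)` is open and uniformly open for every compact
Hausdorff space `X` of covering dimension at most one. The open ball of radius `ε ^ 2 / 300` about
`f * g` is contained in the product of the open balls of radius `ε` about `f` and `g`, for all
`f` and `g` (not only those in the unit ball) and all such `X`. -/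
theorem result (X : Type u) [TopologicalSpace X] [CompactSpace X] [T2Space X]
    (hX : CovDimLE 1 X) :
    IsOpenMap (fun p : C(X, ℂ) × C(X, ℂ) => p.1 * p.2) ∧
    (∀ ε : ℝ, 0 < ε → ∀ f g : C(X, ℂ),
      Metric.ball (f * g) (ε ^ 2 / 300) ⊆ Metric.ball f ε * Metric.ball g ε) := by
  have key : ∀ ε : ℝ, 0 < ε → ∀ f g : C(X, ℂ),
      Metric.ball (f * g) (ε ^ 2 / 300) ⊆ Metric.ball f ε * Metric.ball g ε := by
    intro ε hε f g h hh
    rw [Metric.mem_ball, dist_eq_norm] at hh
    obtain ⟨F, G, h1, h2, h3⟩ := ball_subset hX f g h hε hh.le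
    rw [Set.mem_mul]
    refine ⟨F, ?_, G, ?_, h1⟩
    · rwa [Metric.mem_ball, dist_eq_norm]
    · rwa [Metric.mem_ball, dist_eq_norm]
  refine ⟨?_, key⟩
  rw [isOpenMap_iff_nhds_le]
  rintro ⟨f, g⟩ s hs
  rw [Filter.mem_map, Metric.mem_nhds_iff] at hs
  obtain ⟨ε, hε, hball⟩ := hs
  refine Filter.mem_of_superset (Metric.ball_mem_nhds (f * g)
    (by positivity : (0 : ℝ) < ε ^ 2 / 300)) ?_
  intro h hh
  obtain ⟨F, hF, G, hG, rfl⟩ := Set.mem_mul.mp (key ε hε f g hh)
  have : (F, G) ∈ Metric.ball (f, g) ε := by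
    rw [Metric.mem_ball, Prod.dist_eq, max_lt_iff]
    exact ⟨hF, hG⟩
  exact hball this

end Pool.Agent.Results.MP_64150f_an.OpenMul
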